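import Pool.Agent.Helper94.Sub.Gen
import Pool.Agent.Helper1.SubMINKL
import Pool.Agent.Helper1.SubDUAL
import Pool.Agent.Helper49.SubDAV
import Pool.Agent.Helper68.SubMINK2
import Pool.Agent.Helper51.SubPENULT
import Pool.Agent.Helper47.SubLIOU
import Pool.Agent.Helper53.SubMACHINEfull
import Pool.Agent.Helper71.SubROTH1

/-!
# Subspace theorem project: the parametric subspace theorem
-/

set_option autoImplicit false
set_option linter.unusedSectionVars false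

namespace Pool.Agent.Helper94.Sub

open Pool.Agent.Helper10.Sub

variable {ι : Type} [Fintype ι] [DecidableEq ι]
  {T : Type} [Fintype T] {p : T → ℕ} [∀ t, Fact (p t).Prime]

theorem roth1Statement : Pool.Agent.Helper80.Sub.Roth1Statement :=
  fun b ε hε => Pool.Agent.Helper71.Sub.roth1 b ε hε

/-- The penultimate minimum theorem. -/
theorem penult (S : Sys ι T p) (hp : Function.Injective p) (hι : 2 ≤ Fintype.card ι)
    (δ B : ℝ) (hδ : 0 < δ) :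
    {m : ι → ℤ | Prim m ∧ ∃ Q : ℝ, 1 ≤ Q ∧ ∃ (a : ι → ℝ) (a' : T → ι → ℝ),
      (∀ i, Q ^ (-B) ≤ a i ∧ a i ≤ Q ^ B) ∧ (∀ t i, Q ^ (-B) ≤ a' t i ∧ a' t i ≤ Q ^ B) ∧
      wprod a a' ≤ 1 ∧ ∃ y : Fin (Fintype.card ι - 1) → ι → ℚ, LinearIndependent ℚ y ∧
        (∀ j, PVec (pprod p) (y j)) ∧ (∀ j, ∑ i, (m i : ℚ) * y j i = 0) ∧
        (∀ j, S.N a a' (y j) ≤ Q ^ (-δ))}.Finite :=
  Pool.Agent.Helper51.Sub.penult_of S hp hι
    (fun c c' hc δ C1 hδ =>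
      Pool.Agent.Helper53.Sub.machine_of_roth1 roth1Statement S hp hι c c' hc δ C1 hδ)
    (fun β hβ => Pool.Agent.Helper47.Sub.liouR β hβ)
    (fun t β hβ => Pool.Agent.Helper47.Sub.liouP (p t) β hβ) δ B hδ

theorem inputs (hp : Function.Injective p) : Inputs T p where
  low := fun ι _ _ S => Pool.Agent.Helper1.Sub.minkLower S hp
  mink := fun ι _ _ S => Pool.Agent.Helper68.Sub.mink2 S hp
  dav := fun ι _ _ S => by
    obtain ⟨C, hC, h⟩ := Pool.Agent.Helper49.Sub.dav S 1 one_pos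
    refine ⟨C, hC, ?_⟩
    intro a a' ha ha' x hx hmin ρ hρ hanti hmono
    exact h a a' ha ha' x hx (fun j y hy hyn => by
      rw [one_mul]
      exact hmin j y hy hyn) ρ hρ hanti (fun i j hij => by
      rw [one_mul]
      exact hmono i j hij)
  dual := fun ι _ _ S h1 => Pool.Agent.Helper1.Sub.dualMin S h1
  pen := fun ι _ _ S h2 δ B hδ => penult S hp h2 δ B hδ

/-- The parametric Subspace Theorem. -/
theorem subspace (S : Sys ι T p) (hp : Function.Injective p) (hι : 2 ≤ Fintype.card ι)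
    (δ B : ℝ) (hδ : 0 < δ) : ∃ 𝒲 : Finset (Submodule ℚ (ι → ℚ)), (∀ W ∈ 𝒲, W ≠ ⊤) ∧
    ∀ (Q : ℝ) (a : ι → ℝ) (a' : T → ι → ℝ), 1 ≤ Q →
      (∀ i, Q ^ (-B) ≤ a i ∧ a i ≤ Q ^ B) → (∀ t i, Q ^ (-B) ≤ a' t i ∧ a' t i ≤ Q ^ B) →
      wprod a a' ≤ Q ^ (-δ) → ∀ x : ι → ℚ, PVec (pprod p) x → S.N a a' x ≤ 1 →
      ∃ W ∈ 𝒲, x ∈ W :=
  subspace_of_inputs (inputs hp) hp hι S δ B hδ

end Pool.Agent.Helper94.Sub
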