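import Pool.Agent.Helper94.Sub.Select
import Pool.Agent.Helper94.SubSUB

/-!
# Subspace theorem project: forms with values in `ℂ` and in finite extensions of `ℚ_p`
-/

set_option autoImplicit false
set_option linter.unusedSectionVars false

namespace Pool.Agent.Helper94.Sub

open Pool.Agent.Helper10.Sub

theorem span_algebraic_complex : Submodule.span ℝ {x : ℂ | IsAlgebraic ℚ x} = ⊤ := by
  rw [eq_top_iff]
  intro z _
  have h1 : z = z.re • (1 : ℂ) + z.im • Complex.I := by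
    apply Complex.ext <;> simp
  rw [h1]
  refine Submodule.add_mem _ (Submodule.smul_mem _ _ (Submodule.subset_span ?_))
    (Submodule.smul_mem _ _ (Submodule.subset_span ?_))
  · exact isAlgebraic_one
  · show IsAlgebraic ℚ Complex.I
    refine ⟨Polynomial.X ^ 2 + 1, ?_, ?_⟩
    · exact (Polynomial.monic_X_pow_add_C (1 : ℚ) two_ne_zero).ne_zero
    · simp

/-- SUBF -/
theorem subspaceF {ι : Type} [Fintype ι] [DecidableEq ι] {T : Type} [Fintype T] {p : T → ℕ}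
    [∀ t, Fact (p t).Prime] (F : T → Type) [∀ t, NontriviallyNormedField (F t)]
    [∀ t, NormedAlgebra ℚ_[p t] (F t)] [∀ t, FiniteDimensional ℚ_[p t] (F t)]
    [∀ t, CharZero (F t)]
    (hF : ∀ t, Submodule.span ℚ_[p t] {x : F t | IsAlgebraic ℚ x} = ⊤)
    (δ B : ℝ)
    (hsub : ∀ S : Sys ι T p, ∃ 𝒲 : Finset (Submodule ℚ (ι → ℚ)), (∀ W ∈ 𝒲, W ≠ ⊤) ∧
      ∀ (Q : ℝ) (a : ι → ℝ) (a' : T → ι → ℝ), 1 ≤ Q →
      (∀ i, Q ^ (-(B + 1)) ≤ a i ∧ a i ≤ Q ^ (B + 1)) →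
      (∀ t i, Q ^ (-(B + 1)) ≤ a' t i ∧ a' t i ≤ Q ^ (B + 1)) →
      wprod a a' ≤ Q ^ (-(δ / 2)) → ∀ x : ι → ℚ, PVec (pprod p) x → S.N a a' x ≤ 1 →
      ∃ W ∈ 𝒲, x ∈ W)
    (hp : Function.Injective p) (hι : 2 ≤ Fintype.card ι) (hδ : 0 < δ)
    (A : Matrix ι ι ℂ) (A' : ∀ t, Matrix ι ι (F t))
    (algA : ∀ i j, IsAlgebraic ℚ (A i j)) (algA' : ∀ t i j, IsAlgebraic ℚ (A' t i j))
    (detA : A.det ≠ 0) (detA' : ∀ t, (A' t).det ≠ 0) :
    ∃ 𝒲 : Finset (Submodule ℚ (ι → ℚ)), (∀ W ∈ 𝒲, W ≠ ⊤) ∧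
      ∀ (Q : ℝ) (a : ι → ℝ) (a' : T → ι → ℝ), 1 ≤ Q →
      (∀ i, Q ^ (-B) ≤ a i ∧ a i ≤ Q ^ B) → (∀ t i, Q ^ (-B) ≤ a' t i ∧ a' t i ≤ Q ^ B) →
      wprod a a' ≤ Q ^ (-δ) → ∀ x : ι → ℚ, PVec (pprod p) x →
      (∀ i, ‖∑ j, A i j * ((x j : ℚ) : ℂ)‖ ≤ a i) →
      (∀ t i, ‖∑ j, A' t i j * ((x j : ℚ) : F t)‖ ≤ a' t i) → ∃ W ∈ 𝒲, x ∈ W := by
  classical
  obtain ⟨A0, C0, hC0, hdet0, halg0, hbd0⟩ :=
    exists_select_bound (k := ℝ) (K := ℂ) span_algebraic_complex A algA detA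
  have h1 := fun t => exists_select_bound (k := ℚ_[p t]) (K := F t) (hF t) (A' t) (algA' t)
    (detA' t)
  choose A1 C1 hC1 hdet1 halg1 hbd1 using h1
  set S : Sys ι T p := ⟨A0, A1, halg0, halg1, hdet0, hdet1⟩ with hS
  set C : ℝ := C0 + ∑ t, C1 t with hC
  have hCs : ∀ t, C1 t ≤ C := by
    intro t
    have h1 : C1 t ≤ ∑ t, C1 t := Finset.single_le_sum (f := C1)
      (fun t _ => by linarith [hC1 t]) (Finset.mem_univ t)
    linarith
  have hCs0 : C0 ≤ C := by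
    have h1 : 0 ≤ ∑ t, C1 t := Finset.sum_nonneg fun t _ => by linarith [hC1 t]
    linarith
  have hC1' : 1 ≤ C := hC0.trans hCs0
  have hCpos : 0 < C := by linarith
  obtain ⟨𝒲, h𝒲, hW⟩ := hsub S
  set r : ℕ := Fintype.card ι + Fintype.card T * Fintype.card ι with hr
  obtain ⟨Q1, hQ1, hQ1'⟩ := exists_ge_rpow (C ^ r) (δ / 2) (by positivity)
  set Q2 : ℝ := max Q1 C with hQ2
  have hQ2one : 1 ≤ Q2 := hC1'.trans (le_max_right _ _)
  obtain ⟨F0, hF0, hF0'⟩ := finite_lines S hp 1 (C * Q2 ^ |B|)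
  -- the size of the solutions
  have hsize : ∀ (a : ι → ℝ) (a' : T → ι → ℝ), (∀ i, 0 < a i) → (∀ t i, 0 < a' t i) →
      ∀ x : ι → ℚ, (∀ i, ‖∑ j, A i j * ((x j : ℚ) : ℂ)‖ ≤ a i) →
      (∀ t i, ‖∑ j, A' t i j * ((x j : ℚ) : F t)‖ ≤ a' t i) →
      S.N (fun i => C * a i) (fun t i => C * a' t i) x ≤ 1 := by
    intro a a' ha ha' x h1 h2
    have e1 : S.Ninf (fun i => C * a i) x ≤ 1 := by
      unfold Sys.Ninf
      refine (pi_norm_le_iff_of_nonneg zero_le_one).2 fun i => ?_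
      rw [norm_div, Real.norm_eq_abs (C * a i), abs_of_pos (mul_pos hCpos (ha i)),
        div_le_one (mul_pos hCpos (ha i))]
      refine (hbd0 x i).trans ?_
      exact mul_le_mul hCs0 (h1 i) (norm_nonneg _) hCpos.le
    have e2 : ∀ t, S.Np t (fun i => C * a' t i) x ≤ 1 := by
      intro t
      unfold Sys.Np
      refine (pi_norm_le_iff_of_nonneg zero_le_one).2 fun i => ?_
      rw [norm_div, norm_norm, Real.norm_eq_abs (C * a' t i), abs_of_pos (mul_pos hCpos (ha' t i)),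
        div_le_one (mul_pos hCpos (ha' t i))]
      refine (hbd1 t x i).trans ?_
      exact mul_le_mul (hCs t) (h2 t i) (norm_nonneg _) hCpos.le
    unfold Sys.N
    calc _ ≤ (1 : ℝ) * 1 := by
          refine mul_le_mul e1 ?_ (Finset.prod_nonneg fun t _ => Np_nonneg _ _ _ _) zero_le_one
          exact Finset.prod_le_one (fun t _ => Np_nonneg _ _ _ _) fun t _ => e2 t
      _ = 1 := one_mul 1
  refine ⟨(insert ⊥ (F0 ∪ 𝒲)).filter fun W => W ≠ ⊤, fun W hW => (Finset.mem_filter.1 hW).2, ?_⟩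
  intro Q a a' hQ ha ha' hw x hx hxa hxa'
  suffices h : ∃ W ∈ insert ⊥ (F0 ∪ 𝒲), x ∈ W ∧ W ≠ ⊤ by
    obtain ⟨W, hW, hxW, hne⟩ := h
    exact ⟨W, Finset.mem_filter.2 ⟨hW, hne⟩, hxW⟩
  have hfr : Module.finrank ℚ (ι → ℚ) = Fintype.card ι := by simp
  by_cases hx0 : x = 0
  · refine ⟨⊥, Finset.mem_insert_self _ _, by simp [hx0], ?_⟩
    intro h
    have h1 : Module.finrank ℚ (⊥ : Submodule ℚ (ι → ℚ)) = Fintype.card ι := by
      rw [h, finrank_top, hfr]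
    rw [finrank_bot] at h1
    omega
  have hQpos : 0 < Q := by linarith
  have hapos : ∀ i, 0 < a i := fun i => (Real.rpow_pos_of_pos hQpos _).trans_le (ha i).1
  have hapos' : ∀ t i, 0 < a' t i := fun t i => (Real.rpow_pos_of_pos hQpos _).trans_le (ha' t i).1
  have hN := hsize a a' hapos hapos' x hxa hxa'
  rcases le_or_gt Q2 Q with hQQ | hQQ
  · -- large `Q`
    have hCQ : C ≤ Q := (le_max_right _ _).trans hQQ
    have hmono : ∀ y : ℝ, Q ^ (-B) ≤ y ∧ y ≤ Q ^ B →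
        Q ^ (-(B + 1)) ≤ C * y ∧ C * y ≤ Q ^ (B + 1) := by
      intro y hy
      have hy0 : 0 < y := (Real.rpow_pos_of_pos hQpos _).trans_le hy.1
      constructor
      · calc Q ^ (-(B + 1)) ≤ Q ^ (-B) := Real.rpow_le_rpow_of_exponent_le hQ (by linarith)
          _ ≤ y := hy.1
          _ ≤ C * y := le_mul_of_one_le_left hy0.le hC1'
      · rw [Real.rpow_add hQpos, Real.rpow_one, mul_comm (Q ^ B)]
        exact mul_le_mul hCQ hy.2 hy0.le hQpos.le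
    have hwp : wprod (fun i => C * a i) (fun t i => C * a' t i) = C ^ r * wprod a a' := by
      unfold wprod
      simp only [Finset.prod_mul_distrib, Finset.prod_const, Finset.card_univ]
      rw [hr, pow_add, mul_comm (Fintype.card T), pow_mul]
      ring
    have hw' : wprod (fun i => C * a i) (fun t i => C * a' t i) ≤ Q ^ (-(δ / 2)) := by
      rw [hwp]
      have e1 := hQ1' Q ((le_max_left _ _).trans hQQ)
      calc C ^ r * wprod a a' ≤ Q ^ (δ / 2) * Q ^ (-δ) :=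
            mul_le_mul e1 hw (wprod_pos hapos hapos').le (Real.rpow_nonneg hQpos.le _)
        _ = Q ^ (-(δ / 2)) := by
            rw [← Real.rpow_add hQpos]
            congr 1
            ring
    obtain ⟨W, hWm, hxW⟩ := hW Q _ _ hQ (fun i => hmono _ (ha i)) (fun t i => hmono _ (ha' t i))
      hw' x hx hN
    exact ⟨W, Finset.mem_insert_of_mem (Finset.mem_union_right _ hWm), hxW, h𝒲 W hWm⟩
  · -- small `Q`
    have hle : ∀ y : ℝ, y ≤ Q ^ B → C * y ≤ C * Q2 ^ |B| := by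
      intro y hy
      refine mul_le_mul_of_nonneg_left ?_ hCpos.le
      calc y ≤ Q ^ B := hy
        _ ≤ Q ^ |B| := Real.rpow_le_rpow_of_exponent_le hQ (le_abs_self _)
        _ ≤ Q2 ^ |B| := Real.rpow_le_rpow hQpos.le hQQ.le (abs_nonneg _)
    have h1 := hF0' _ _ (fun i => ⟨mul_pos hCpos (hapos i), hle _ (ha i).2⟩)
      (fun t i => ⟨mul_pos hCpos (hapos' t i), hle _ (ha' t i).2⟩) x hx hx0 hN
    refine ⟨_, Finset.mem_insert_of_mem (Finset.mem_union_left _ h1),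
      Submodule.mem_span_singleton_self _, ?_⟩
    intro h
    have h2 : Module.finrank ℚ (Submodule.span ℚ {x}) = Fintype.card ι := by
      rw [h, finrank_top, hfr]
    have h3 : Module.finrank ℚ (Submodule.span ℚ {x}) ≤ 1 := by
      have := finrank_span_le_card (R := ℚ) ({x} : Set (ι → ℚ))
      simpa using this
    omega

/-- The parametric Subspace Theorem for forms with values in `ℂ` and in finite extensions of the
fields `ℚ_p`. -/
theorem subspaceF_all {ι : Type} [Fintype ι] [DecidableEq ι] {T : Type} [Fintype T] {p : T → ℕ}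
    [∀ t, Fact (p t).Prime] (F : T → Type) [∀ t, NontriviallyNormedField (F t)]
    [∀ t, NormedAlgebra ℚ_[p t] (F t)] [∀ t, FiniteDimensional ℚ_[p t] (F t)]
    [∀ t, CharZero (F t)]
    (hF : ∀ t, Submodule.span ℚ_[p t] {x : F t | IsAlgebraic ℚ x} = ⊤)
    (δ B : ℝ)
    (hp : Function.Injective p) (hι : 2 ≤ Fintype.card ι) (hδ : 0 < δ)
    (A : Matrix ι ι ℂ) (A' : ∀ t, Matrix ι ι (F t))
    (algA : ∀ i j, IsAlgebraic ℚ (A i j)) (algA' : ∀ t i j, IsAlgebraic ℚ (A' t i j))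
    (detA : A.det ≠ 0) (detA' : ∀ t, (A' t).det ≠ 0) :
    ∃ 𝒲 : Finset (Submodule ℚ (ι → ℚ)), (∀ W ∈ 𝒲, W ≠ ⊤) ∧
      ∀ (Q : ℝ) (a : ι → ℝ) (a' : T → ι → ℝ), 1 ≤ Q →
      (∀ i, Q ^ (-B) ≤ a i ∧ a i ≤ Q ^ B) → (∀ t i, Q ^ (-B) ≤ a' t i ∧ a' t i ≤ Q ^ B) →
      wprod a a' ≤ Q ^ (-δ) → ∀ x : ι → ℚ, PVec (pprod p) x →
      (∀ i, ‖∑ j, A i j * ((x j : ℚ) : ℂ)‖ ≤ a i) →
      (∀ t i, ‖∑ j, A' t i j * ((x j : ℚ) : F t)‖ ≤ a' t i) → ∃ W ∈ 𝒲, x ∈ W :=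
  subspaceF F hF δ B (fun S => subspace S hp hι (δ / 2) (B + 1) (by positivity)) hp hι hδ A A'
    algA algA' detA detA'

end Pool.Agent.Helper94.Sub
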