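import Mathlib

/-!
# Approximate Lagrange multipliers in Hilbert space
-/

set_option autoImplicit false

open Set Filter Topology
open scoped RealInnerProductSpace

namespace Helper94.Dimer

/-- A decreasing sequence of nonempty closed bounded convex sets has a common point. -/
theorem nonempty_iInter_convex {H : Type*} [NormedAddCommGroup H] [InnerProductSpace ℝ H]
    [CompleteSpace H] (C : ℕ → Set H) (hC : Antitone C) (hne : ∀ n, (C n).Nonempty)
    (hcl : ∀ n, IsClosed (C n)) (hcv : ∀ n, Convex ℝ (C n))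
    (hb : Bornology.IsBounded (C 0)) : (⋂ n, C n).Nonempty := by
  choose v hvC hv using fun n =>
    exists_norm_eq_iInf_of_complete_convex (hne n) (hcl n).isComplete (hcv n) (0 : H)
  have hmin : ∀ n, ∀ w ∈ C n, ‖v n‖ ≤ ‖w‖ := by
    intro n w hw
    have h1 := hv n
    rw [zero_sub, norm_neg] at h1
    rw [h1]
    have h2 : BddBelow (Set.range fun w : C n => ‖(0 : H) - w‖) :=
      ⟨0, by rintro _ ⟨w, rfl⟩; exact norm_nonneg _⟩
    have h3 := ciInf_le h2 ⟨w, hw⟩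
    simpa using h3
  obtain ⟨R, hR⟩ := hb.exists_norm_le
  have hmono : Monotone fun n => ‖v n‖ := fun n k hnk => hmin n _ (hC hnk (hvC k))
  have hbdd : BddAbove (Set.range fun n => ‖v n‖) :=
    ⟨R, by rintro _ ⟨n, rfl⟩; exact hR _ (hC (Nat.zero_le n) (hvC n))⟩
  have htend := tendsto_atTop_ciSup hmono hbdd
  set L : ℝ := ⨆ n, ‖v n‖ with hL
  have hle : ∀ n, ‖v n‖ ≤ L := fun n => le_ciSup hbdd n
  have hdist : ∀ n k, n ≤ k → dist (v n) (v k) ≤ Real.sqrt (2 * (L ^ 2 - ‖v n‖ ^ 2)) := by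
    intro n k hnk
    rw [dist_eq_norm]
    apply Real.le_sqrt_of_sq_le
    have hmid : (1 / 2 : ℝ) • v n + (1 / 2 : ℝ) • v k ∈ C n :=
      hcv n (hvC n) (hC hnk (hvC k)) (by norm_num) (by norm_num) (by norm_num)
    have h1 := hmin n _ hmid
    have h2 : ‖(1 / 2 : ℝ) • v n + (1 / 2 : ℝ) • v k‖ = (1 / 2) * ‖v n + v k‖ := by
      rw [← smul_add, norm_smul]
      norm_num
    rw [h2] at h1
    have h3 := parallelogram_law_with_norm ℝ (v n) (v k)
    have h4 : (2 * ‖v n‖) ^ 2 ≤ ‖v n + v k‖ ^ 2 :=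
      pow_le_pow_left₀ (by positivity) (by linarith) 2
    have h5 : ‖v k‖ ^ 2 ≤ L ^ 2 := pow_le_pow_left₀ (norm_nonneg _) (hle k) 2
    nlinarith
  have hb0 : Tendsto (fun n => Real.sqrt (2 * (L ^ 2 - ‖v n‖ ^ 2))) atTop (𝓝 0) := by
    have h1 : Tendsto (fun n => 2 * (L ^ 2 - ‖v n‖ ^ 2)) atTop (𝓝 (2 * (L ^ 2 - L ^ 2))) :=
      (tendsto_const_nhds.sub (htend.pow 2)).const_mul 2
    rw [sub_self, mul_zero] at h1
    have h2 := (Real.continuous_sqrt.tendsto 0).comp h1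
    rwa [Real.sqrt_zero] at h2
  have hcau : CauchySeq v := cauchySeq_of_le_tendsto_0' _ hdist hb0
  obtain ⟨x, hx⟩ := cauchySeq_tendsto_of_complete hcau
  refine ⟨x, mem_iInter.2 fun n => ?_⟩
  refine (hcl n).mem_of_tendsto hx ?_
  filter_upwards [eventually_ge_atTop n] with k hk
  exact hC hk (hvC k)

theorem hilbert_minimax {H : Type*} [NormedAddCommGroup H] [InnerProductSpace ℝ H]
    [CompleteSpace H] (S : Set H) (hconv : Convex ℝ S) (hbdd : Bornology.IsBounded S)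
    (hScl : IsClosed S) (J : H → ℝ) (hJ : ConcaveOn ℝ S J)
    (hclosed : ∀ r : ℝ, IsClosed {f | f ∈ S ∧ r ≤ J f}) (V : Submodule ℝ H) (x₀ : H)
    (hx₀ : x₀ ∈ S) (hmax : ∀ f ∈ S, (∀ q ∈ V, ⟪q, f - x₀⟫ = 0) → J f ≤ J x₀)
    (ε : ℝ) (hε : 0 < ε) :
    ∃ q ∈ V, ∀ f ∈ S, J f + ⟪q, f - x₀⟫ ≤ J x₀ + ε := by
  set P : H →L[ℝ] H := (Vᗮᗮ).starProjection with hP
  have hP0 : ∀ u, P u = 0 → ∀ q ∈ V, ⟪q, u⟫ = 0 := by
    intro u hu q hq
    have h1 : u ∈ (Vᗮᗮ)ᗮ := (Submodule.starProjection_apply_eq_zero_iff _).1 hu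
    exact (Submodule.mem_orthogonal _ _).1 h1 q (Submodule.le_orthogonal_orthogonal V hq)
  -- the sets of almost counterexamples
  set C : ℕ → Set H := fun n =>
    {f | f ∈ S ∧ J x₀ + ε / 4 ≤ J f} ∩ {f | ‖P (f - x₀)‖ ≤ 1 / ((n : ℝ) + 1)} with hC
  have hCanti : Antitone C := by
    intro n k hnk f hf
    refine ⟨hf.1, ?_⟩
    have h1 : ‖P (f - x₀)‖ ≤ 1 / ((k : ℝ) + 1) := hf.2
    refine le_trans h1 ?_
    apply one_div_le_one_div_of_le (by positivity)
    have : (n : ℝ) ≤ k := by exact_mod_cast hnk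
    linarith
  have hCcl : ∀ n, IsClosed (C n) := by
    intro n
    refine (hclosed _).inter (isClosed_le ?_ continuous_const)
    exact (P.continuous.comp (continuous_id.sub continuous_const)).norm
  have hCcv : ∀ n, Convex ℝ (C n) := by
    intro n
    refine (hJ.convex_ge _).inter ?_
    intro f hf g hg a b ha hb hab
    have h1 : P (a • f + b • g - x₀) = a • P (f - x₀) + b • P (g - x₀) := by
      rw [← map_smul, ← map_smul, ← map_add]
      congr 1
      have : x₀ = a • x₀ + b • x₀ := by rw [← add_smul, hab, one_smul]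
      conv_lhs => rw [this]
      simp only [smul_sub]
      abel
    show ‖P (a • f + b • g - x₀)‖ ≤ _
    rw [h1]
    have hf' : ‖P (f - x₀)‖ ≤ 1 / ((n : ℝ) + 1) := hf
    have hg' : ‖P (g - x₀)‖ ≤ 1 / ((n : ℝ) + 1) := hg
    calc ‖a • P (f - x₀) + b • P (g - x₀)‖ ≤ ‖a • P (f - x₀)‖ + ‖b • P (g - x₀)‖ := norm_add_le _ _
      _ = a * ‖P (f - x₀)‖ + b * ‖P (g - x₀)‖ := by
          rw [norm_smul, norm_smul, Real.norm_of_nonneg ha, Real.norm_of_nonneg hb]
      _ ≤ a * (1 / ((n : ℝ) + 1)) + b * (1 / ((n : ℝ) + 1)) := by gcongr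
      _ = 1 / ((n : ℝ) + 1) := by rw [← add_mul, hab, one_mul]
  obtain ⟨n, hn⟩ : ∃ n, C n = ∅ := by
    by_contra hcon
    push Not at hcon
    have h1 := nonempty_iInter_convex C hCanti hcon hCcl hCcv
      (hbdd.subset fun f hf => hf.1.1)
    obtain ⟨f, hf⟩ := h1
    rw [mem_iInter] at hf
    have hf0 := hf 0
    have h2 : P (f - x₀) = 0 := by
      rw [← norm_eq_zero]
      apply le_antisymm _ (norm_nonneg _)
      apply ge_of_tendsto (tendsto_one_div_add_atTop_nhds_zero_nat (𝕜 := ℝ))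
      exact Eventually.of_forall fun n => (hf n).2
    have h3 := hmax f hf0.1.1 (hP0 _ h2)
    have h4 := hf0.1.2
    linarith
  set η : ℝ := 1 / ((n : ℝ) + 1) with hη
  have hηpos : 0 < η := by positivity
  -- separation
  set A : Set (H × ℝ) := {z | ∃ f ∈ S, z.1 = P (f - x₀) ∧ z.2 ≤ J f} with hA
  set Bs : Set (H × ℝ) := Metric.ball 0 η ×ˢ Ioi (J x₀ + ε / 4) with hBs
  have hAcv : Convex ℝ A := by
    rintro ⟨z1, r1⟩ ⟨f, hf, hz1, hr1⟩ ⟨z2, r2⟩ ⟨g, hg, hz2, hr2⟩ a b ha hb hab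
    refine ⟨a • f + b • g, hconv hf hg ha hb hab, ?_, ?_⟩
    · show a • z1 + b • z2 = _
      simp only at hz1 hz2
      rw [hz1, hz2, ← map_smul, ← map_smul, ← map_add]
      congr 1
      have : x₀ = a • x₀ + b • x₀ := by rw [← add_smul, hab, one_smul]
      conv_rhs => rw [this]
      simp only [smul_sub]
      abel
    · have h1 := hJ.2 hf hg ha hb hab
      show a • r1 + b • r2 ≤ _
      simp only [smul_eq_mul] at h1 ⊢
      simp only at hr1 hr2
      have h2 : a * r1 ≤ a * J f := mul_le_mul_of_nonneg_left hr1 ha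
      have h3 : b * r2 ≤ b * J g := mul_le_mul_of_nonneg_left hr2 hb
      linarith
  have hBcv : Convex ℝ Bs := (convex_ball 0 η).prod (convex_Ioi _)
  have hBo : IsOpen Bs := Metric.isOpen_ball.prod isOpen_Ioi
  have hdisj : Disjoint Bs A := by
    rw [Set.disjoint_left]
    rintro ⟨z, r⟩ ⟨hz, hr⟩ ⟨f, hf, hzf, hrf⟩
    have h1 : f ∈ C n := by
      refine ⟨⟨hf, ?_⟩, ?_⟩
      · have : J x₀ + ε / 4 < r := hr
        simp only at hrf
        linarith
      · show ‖P (f - x₀)‖ ≤ η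
        simp only at hzf hz
        rw [← hzf]
        exact (mem_ball_zero_iff.1 hz).le
    rw [hn] at h1
    exact h1
  obtain ⟨φ, u, hφB, hφA⟩ := geometric_hahn_banach_open hBcv hBo hAcv hdisj
  set a : ℝ := φ (0, 1) with ha
  set φ1 : H →L[ℝ] ℝ := φ.comp (ContinuousLinearMap.inl ℝ H ℝ) with hφ1
  have hφ : ∀ z r, φ (z, r) = φ1 z + r * a := by
    intro z r
    have h1 : (z, r) = (z, (0 : ℝ)) + r • ((0 : H), (1 : ℝ)) := by simp
    rw [h1, map_add, map_smul, smul_eq_mul]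
    rfl
  have hx₀A : u ≤ J x₀ * a := by
    have h1 := hφA (0, J x₀) ⟨x₀, hx₀, by simp, le_rfl⟩
    rw [hφ, map_zero, zero_add] at h1
    exact h1
  have hB1 : (J x₀ + ε / 2) * a < u := by
    have h1 := hφB (0, J x₀ + ε / 2) ⟨Metric.mem_ball_self hηpos, by
      show J x₀ + ε / 4 < J x₀ + ε / 2
      linarith⟩
    rw [hφ, map_zero, zero_add] at h1
    exact h1
  have ha0 : a < 0 := by
    by_contra h
    push Not at h
    nlinarith
  -- the multiplier in the closure of `V`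
  set p : H := (InnerProductSpace.toDual ℝ H).symm φ1 with hp
  have hpφ : ∀ z, ⟪p, z⟫ = φ1 z := fun z => InnerProductSpace.toDual_symm_apply
  set q0 : H := P (a⁻¹ • p) with hq0
  have hq0V : q0 ∈ V.topologicalClosure := by
    rw [← Submodule.orthogonal_orthogonal_eq_closure]
    exact Submodule.starProjection_apply_mem _ _
  have hq0le : ∀ f ∈ S, J f + ⟪q0, f - x₀⟫ ≤ J x₀ + ε / 2 := by
    intro f hf
    have h1 := hφA (P (f - x₀), J f) ⟨f, hf, rfl, le_rfl⟩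
    rw [hφ] at h1
    have h2 : ⟪q0, f - x₀⟫ = a⁻¹ * φ1 (P (f - x₀)) := by
      rw [hq0, hP, Submodule.inner_starProjection_left_eq_right, inner_smul_left, ← hP, hpφ]
      simp
    rw [h2]
    have h3 : (J x₀ + ε / 2) * a ≤ φ1 (P (f - x₀)) + J f * a := by linarith
    have h4 : a⁻¹ * (φ1 (P (f - x₀)) + J f * a) ≤ a⁻¹ * ((J x₀ + ε / 2) * a) :=
      mul_le_mul_of_nonpos_left h3 (inv_nonpos.2 ha0.le)
    have h5 : a⁻¹ * (φ1 (P (f - x₀)) + J f * a) = a⁻¹ * φ1 (P (f - x₀)) + J f := by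
      rw [mul_add, mul_comm (J f) a, inv_mul_cancel_left₀ ha0.ne]
    have h6 : a⁻¹ * ((J x₀ + ε / 2) * a) = J x₀ + ε / 2 := by
      rw [mul_comm (J x₀ + ε / 2) a, inv_mul_cancel_left₀ ha0.ne]
    rw [h5, h6] at h4
    linarith
  -- approximation in `V`
  obtain ⟨R, hR⟩ := hbdd.exists_norm_le
  have hR0 : 0 ≤ R := (norm_nonneg _).trans (hR x₀ hx₀)
  have hR1 : 0 < 4 * R + 1 := by linarith
  obtain ⟨q, hqV, hq⟩ := Metric.mem_closure_iff.1 hq0V (ε / (4 * R + 1)) (by positivity)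
  refine ⟨q, hqV, fun f hf => ?_⟩
  have h1 := hq0le f hf
  have h2 : ⟪q, f - x₀⟫ = ⟪q0, f - x₀⟫ + ⟪q - q0, f - x₀⟫ := by
    rw [inner_sub_left]
    ring
  have h3 : ⟪q - q0, f - x₀⟫ ≤ ε / 2 := by
    refine (real_inner_le_norm _ _).trans ?_
    have h4 : ‖q - q0‖ ≤ ε / (4 * R + 1) := by
      rw [← dist_eq_norm, dist_comm]
      exact hq.le
    have h5 : ‖f - x₀‖ ≤ 2 * R := by
      refine (norm_sub_le _ _).trans ?_
      have := hR f hf
      have := hR x₀ hx₀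
      linarith
    calc ‖q - q0‖ * ‖f - x₀‖ ≤ ε / (4 * R + 1) * (2 * R) :=
          mul_le_mul h4 h5 (norm_nonneg _) (by positivity)
      _ ≤ ε / 2 := by
          rw [div_mul_eq_mul_div, div_le_div_iff₀ hR1 two_pos]
          nlinarith
  rw [h2]
  linarith

end Helper94.Dimer
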