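import Mathlib

set_option autoImplicit false

namespace Pool.Agent.Helper94.SWRamsey

theorem ramsey_general (r : ℕ) : ∀ (κ : Type) [Finite κ] (M : ℕ), ∃ N : ℕ, ∀ S : Finset ℕ,
    N ≤ S.card → ∀ f : Finset ℕ → κ, ∃ T ⊆ S, T.card = M ∧ ∃ col : κ,
      ∀ U ⊆ T, U.card = r → f U = col := by
  induction r with
  | zero =>
    intro κ _ M
    refine ⟨M, fun S hS f => ?_⟩
    obtain ⟨T, hT, hTM⟩ := Finset.exists_subset_card_eq hS
    refine ⟨T, hT, hTM, f ∅, fun U _ hU => ?_⟩
    rw [Finset.card_eq_zero.1 hU]
  | succ r ih =>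
    intro κ _ M
    classical
    have claim : ∀ K : ℕ, ∃ N : ℕ, ∀ S : Finset ℕ, N ≤ S.card → ∀ f : Finset ℕ → κ,
        ∃ T ⊆ S, T.card = K ∧ ∃ c : ℕ → κ, ∀ x ∈ T, ∀ U ⊆ T, (∀ y ∈ U, x < y) → U.card = r →
          f (insert x U) = c x := by
      intro K
      induction K with
      | zero =>
        refine ⟨0, fun S _ f => ⟨∅, Finset.empty_subset _, rfl, fun _ => f ∅, ?_⟩⟩
        intro x hx
        simp at hx
      | succ K ihK =>
        obtain ⟨N1, hN1⟩ := ihK
        obtain ⟨N2, hN2⟩ := ih κ N1
        refine ⟨N2 + 1, fun S hS f => ?_⟩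
        have hne : S.Nonempty := by
          rw [← Finset.card_pos]; omega
        let x := S.min' hne
        have hx : x ∈ S := S.min'_mem hne
        have hcard : N2 ≤ (S.erase x).card := by
          rw [Finset.card_erase_of_mem hx]; omega
        obtain ⟨S2, hS2, hS2c, col, hcol⟩ := hN2 (S.erase x) hcard (fun U => f (insert x U))
        obtain ⟨T, hT, hTc, c, hc⟩ := hN1 S2 hS2c.ge f
        have hlt : ∀ y ∈ T, x < y := by
          intro y hy
          have h1 := hS2 (hT hy)
          rw [Finset.mem_erase] at h1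
          exact lt_of_le_of_ne (S.min'_le y h1.2) (Ne.symm h1.1)
        have hxT : x ∉ T := fun h => lt_irrefl _ (hlt x h)
        refine ⟨insert x T, ?_, ?_, fun y => if y = x then col else c y, ?_⟩
        · intro y hy
          rw [Finset.mem_insert] at hy
          rcases hy with rfl | hy
          · exact hx
          · exact Finset.mem_of_mem_erase (hS2 (hT hy))
        · rw [Finset.card_insert_of_notMem hxT, hTc]
        · intro y hy U hU hUy hUc
          have hUT : U ⊆ T := by
            intro z hz
            have h1 := hU hz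
            rw [Finset.mem_insert] at h1
            rcases h1 with rfl | h1
            · exfalso
              have h2 := hUy _ hz
              rw [Finset.mem_insert] at hy
              rcases hy with rfl | hy
              · exact lt_irrefl _ h2
              · exact lt_asymm h2 (hlt y hy)
            · exact h1
          rw [Finset.mem_insert] at hy
          rcases hy with rfl | hy
          · simp only [if_pos]
            exact hcol U (hUT.trans hT) hUc
          · have hyx : y ≠ x := fun h => hxT (h ▸ hy)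
            simp only [if_neg hyx]
            exact hc y hy U hUT hUy hUc
    have := Fintype.ofFinite κ
    obtain ⟨N, hN⟩ := claim (Fintype.card κ * M)
    refine ⟨N, fun S hS f => ?_⟩
    obtain ⟨T, hT, hTc, c, hc⟩ := hN S hS f
    have : Nonempty κ := ⟨f ∅⟩
    obtain ⟨col, -, hcol⟩ := Finset.exists_le_card_fiber_of_mul_le_card_of_maps_to
      (s := T) (t := Finset.univ) (f := c) (n := M) (fun _ _ => Finset.mem_univ _)
      Finset.univ_nonempty (by rw [Finset.card_univ, hTc])
    obtain ⟨T', hT', hT'c⟩ := Finset.exists_subset_card_eq hcol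
    refine ⟨T', ?_, hT'c, col, ?_⟩
    · exact (hT'.trans (Finset.filter_subset _ _)).trans hT
    · intro U hU hUc
      have hne : U.Nonempty := by rw [← Finset.card_pos]; omega
      have hmem := U.min'_mem hne
      have h1 := hT' (hU hmem)
      rw [Finset.mem_filter] at h1
      have h2 := hc (U.min' hne) h1.1 (U.erase (U.min' hne))
        (((Finset.erase_subset _ _).trans hU).trans (hT'.trans (Finset.filter_subset _ _)))
        (fun y hy => by
          rw [Finset.mem_erase] at hy
          exact lt_of_le_of_ne (U.min'_le y hy.2) (Ne.symm hy.1))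
        (by rw [Finset.card_erase_of_mem hmem, hUc]; rfl)
      rw [Finset.insert_erase hmem] at h2
      rw [h2, h1.2]

/-- Turning a finset of size `M` into an increasing enumeration. -/
theorem exists_enum (T : Finset ℕ) (M N : ℕ) (hT : T ⊆ Finset.range N) (hTM : T.card = M) :
    ∃ h : ℕ → ℕ, (∀ a b, a < b → b < M → h a < h b) ∧ (∀ a, a < M → h a < N) ∧
      ∀ a, a < M → h a ∈ T := by
  let e := T.orderEmbOfFin hTM
  have hmem : ∀ i, e i ∈ T := fun i => T.orderEmbOfFin_mem hTM i
  refine ⟨fun a => if ha : a < M then e ⟨a, ha⟩ else 0, ?_, ?_, ?_⟩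
  · intro a b hab hb
    simp only
    rw [dif_pos (hab.trans hb), dif_pos hb]
    exact e.strictMono hab
  · intro a ha
    simp only
    rw [dif_pos ha]
    exact Finset.mem_range.1 (hT (hmem _))
  · intro a ha
    simp only
    rw [dif_pos ha]
    exact hmem _

theorem ramsey4 (κ : Type) [Finite κ] (M : ℕ) : ∃ N : ℕ, ∀ f : ℕ → ℕ → ℕ → ℕ → κ,
    ∃ h : ℕ → ℕ, (∀ a b, a < b → b < M → h a < h b) ∧ (∀ a, a < M → h a < N) ∧
      ∃ col : κ, ∀ a b c d, a < b → b < c → c < d → d < M → f (h a) (h b) (h c) (h d) = col := by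
  obtain ⟨N, hN⟩ := ramsey_general 4 κ M
  refine ⟨N, fun f => ?_⟩
  let F : Finset ℕ → κ := fun U => match U.sort (· ≤ ·) with
    | [a, b, c, d] => f a b c d
    | _ => f 0 0 0 0
  obtain ⟨T, hT, hTM, col, hcol⟩ := hN (Finset.range N) (by simp) F
  obtain ⟨h, h1, h2, h3⟩ := exists_enum T M N hT hTM
  refine ⟨h, h1, h2, col, ?_⟩
  intro a b c d hab hbc hcd hd
  have hc := hcd.trans hd
  have hb := hbc.trans hc
  have ha := hab.trans hb
  have l1 := h1 a b hab hb
  have l2 := h1 b c hbc hc
  have l3 := h1 c d hcd hd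
  have hsort : ({h a, h b, h c, h d} : Finset ℕ).sort (· ≤ ·) = [h a, h b, h c, h d] := by
    rw [Finset.sort_insert, Finset.sort_insert, Finset.sort_insert, Finset.sort_singleton]
    all_goals simp
    all_goals omega
  have := hcol {h a, h b, h c, h d} (by
    intro x hx
    simp only [Finset.mem_insert, Finset.mem_singleton] at hx
    rcases hx with rfl | rfl | rfl | rfl
    · exact h3 a ha
    · exact h3 b hb
    · exact h3 c hc
    · exact h3 d hd) (by
    rw [← Finset.length_sort (· ≤ ·), hsort]; rfl)
  simp only [F, hsort] at this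
  exact this

theorem ramsey2 (κ : Type) [Finite κ] (M : ℕ) : ∃ N : ℕ, ∀ f : ℕ → ℕ → κ,
    ∃ h : ℕ → ℕ, (∀ a b, a < b → b < M → h a < h b) ∧ (∀ a, a < M → h a < N) ∧
      ∃ col : κ, ∀ a b, a < b → b < M → f (h a) (h b) = col := by
  obtain ⟨N, hN⟩ := ramsey_general 2 κ M
  refine ⟨N, fun f => ?_⟩
  let F : Finset ℕ → κ := fun U => match U.sort (· ≤ ·) with
    | [a, b] => f a b
    | _ => f 0 0
  obtain ⟨T, hT, hTM, col, hcol⟩ := hN (Finset.range N) (by simp) F
  obtain ⟨h, h1, h2, h3⟩ := exists_enum T M N hT hTM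
  refine ⟨h, h1, h2, col, ?_⟩
  intro a b hab hb
  have ha := hab.trans hb
  have l1 := h1 a b hab hb
  have hsort : ({h a, h b} : Finset ℕ).sort (· ≤ ·) = [h a, h b] := by
    rw [Finset.sort_insert, Finset.sort_singleton]
    all_goals simp
    all_goals omega
  have := hcol {h a, h b} (by
    intro x hx
    simp only [Finset.mem_insert, Finset.mem_singleton] at hx
    rcases hx with rfl | rfl
    · exact h3 a ha
    · exact h3 b hb) (by
    rw [← Finset.length_sort (· ≤ ·), hsort]; rfl)
  simp only [F, hsort] at this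
  exact this

end Pool.Agent.Helper94.SWRamsey
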