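import Mathlib

set_option autoImplicit false

namespace Pool.Agent.Helper94.LinMean

open MeasureTheory Filter Topology Set Metric

theorem circle_le (f : ℂ → ℂ) (c : ℂ) (ρ : ℝ) (hf : DiffContOnCl ℂ f (ball c |ρ|)) :
    ENNReal.ofReal (2 * Real.pi) * ‖f c‖ₑ ≤
      ∫⁻ θ in Ioo (-Real.pi) Real.pi, ‖f (circleMap c ρ θ)‖ₑ := by
  have h1 := hf.circleAverage
  rw [Real.circleAverage_eq_integral_add (-Real.pi)] at h1
  rw [intervalIntegral.integral_comp_add_right (fun θ => f (circleMap c ρ θ))] at h1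
  have e1 : (0 : ℝ) + -Real.pi = -Real.pi := by ring
  have e2 : 2 * Real.pi + -Real.pi = Real.pi := by ring
  rw [e1, e2] at h1
  have hpi : (0 : ℝ) < 2 * Real.pi := by positivity
  have h2 : (2 * Real.pi) • f c = ∫ θ in (-Real.pi)..Real.pi, f (circleMap c ρ θ) := by
    rw [← h1, smul_smul, mul_inv_cancel₀ hpi.ne', one_smul]
  have h3 : ENNReal.ofReal (2 * Real.pi) * ‖f c‖ₑ = ‖(2 * Real.pi) • f c‖ₑ := by
    rw [enorm_smul, Real.enorm_of_nonneg hpi.le]
  rw [h3, h2, intervalIntegral.integral_of_le (by linarith [Real.pi_pos]),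
    restrict_Ioo_eq_restrict_Ioc]
  exact enorm_integral_le_lintegral_enorm _

theorem enorm_le_lintegral_ball (f : ℂ → ℂ) (c : ℂ) (r : ℝ) (hr : 0 < r)
    (hf : DifferentiableOn ℂ f (ball c r)) :
    ENNReal.ofReal (Real.pi * r ^ 2) * ‖f c‖ₑ ≤ ∫⁻ z in ball c r, ‖f z‖ₑ := by
  classical
  have hcirc : ∀ ρ ∈ Ioo (0 : ℝ) r, ENNReal.ofReal (2 * Real.pi) * ‖f c‖ₑ ≤
      ∫⁻ θ in Ioo (-Real.pi) Real.pi, ‖f (circleMap c ρ θ)‖ₑ := by
    intro ρ hρ
    refine circle_le f c ρ ?_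
    rw [abs_of_pos hρ.1]
    refine DifferentiableOn.diffContOnCl ?_
    rw [closure_ball _ hρ.1.ne']
    exact hf.mono (closedBall_subset_ball hρ.2)
  let g : ℂ → ENNReal := (ball (0 : ℂ) r).piecewise (fun w => ‖f (c + w)‖ₑ) (fun _ => 0)
  have hmeas : Measurable g := by
    have h1 : ContinuousOn (fun w => ‖f (c + w)‖ₑ) (ball (0 : ℂ) r) := by
      refine ContinuousOn.enorm ?_
      refine hf.continuousOn.comp (by fun_prop) ?_
      intro w hw
      simpa [mem_ball, dist_eq_norm] using hw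
    exact h1.measurable_piecewise continuousOn_const measurableSet_ball
  have hg1 : ∀ w, ‖w‖ < r → g w = ‖f (c + w)‖ₑ := by
    intro w hw
    exact piecewise_eq_of_mem (ball (0 : ℂ) r) _ _ (by simpa using hw)
  have hg2 : ∀ w, ¬ ‖w‖ < r → g w = 0 := by
    intro w hw
    exact piecewise_eq_of_notMem (ball (0 : ℂ) r) _ _ (by simpa using hw)
  have e1 : ∫⁻ z in ball c r, ‖f z‖ₑ = ∫⁻ w, g w := by
    rw [← lintegral_indicator measurableSet_ball, ← lintegral_add_left_eq_self _ c]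
    refine lintegral_congr fun w => ?_
    by_cases hw : ‖w‖ < r
    · rw [hg1 w hw, indicator_of_mem]
      simpa [mem_ball, dist_eq_norm] using hw
    · rw [hg2 w hw, indicator_of_notMem]
      simpa [mem_ball, dist_eq_norm] using hw
  rw [e1, ← Complex.lintegral_comp_polarCoord_symm]
  have htarget : polarCoord.target = Ioi (0 : ℝ) ×ˢ Ioo (-Real.pi) Real.pi := rfl
  rw [htarget, Measure.volume_eq_prod, ← Measure.prod_restrict]
  have hmeas2 : Measurable (fun p : ℝ × ℝ => ENNReal.ofReal p.1 • g (Complex.polarCoord.symm p)) := by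
    have h1 : Measurable (fun p : ℝ × ℝ => Complex.polarCoord.symm p) := by
      simp only [Complex.polarCoord_symm_apply]
      fun_prop
    exact (measurable_fst.ennreal_ofReal).smul (hmeas.comp h1)
  rw [lintegral_prod _ hmeas2.aemeasurable]
  have hρ : ∀ ρ ∈ Ioo (0 : ℝ) r, ENNReal.ofReal ρ * (ENNReal.ofReal (2 * Real.pi) * ‖f c‖ₑ) ≤
      ∫⁻ θ in Ioo (-Real.pi) Real.pi, ENNReal.ofReal ρ • g (Complex.polarCoord.symm (ρ, θ)) := by
    intro ρ hρ
    simp only [smul_eq_mul]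
    rw [lintegral_const_mul' _ _ ENNReal.ofReal_ne_top]
    refine mul_le_mul_right ((hcirc ρ hρ).trans_eq ?_) _
    refine lintegral_congr fun θ => ?_
    rw [hg1]
    · congr 2
      rw [circleMap, Complex.polarCoord_symm_apply]
      simp only
      rw [Complex.exp_mul_I]
      push_cast
      ring
    · rw [Complex.norm_polarCoord_symm, abs_of_pos hρ.1]
      exact hρ.2
  calc ENNReal.ofReal (Real.pi * r ^ 2) * ‖f c‖ₑ
      = (∫⁻ ρ in Ioo (0 : ℝ) r, ENNReal.ofReal ρ) * (ENNReal.ofReal (2 * Real.pi) * ‖f c‖ₑ) := by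
        have h5 : ∫⁻ ρ in Ioo (0 : ℝ) r, ENNReal.ofReal ρ = ENNReal.ofReal (r ^ 2 / 2) := by
          rw [← ofReal_integral_eq_lintegral_ofReal]
          · congr 1
            rw [← integral_Ioc_eq_integral_Ioo, ← intervalIntegral.integral_of_le hr.le,
              integral_id]
            ring
          · exact (continuous_id.integrableOn_Icc (a := 0) (b := r)).mono_set Ioo_subset_Icc_self
          · refine (ae_restrict_iff' measurableSet_Ioo).2 (Eventually.of_forall fun x hx => ?_)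
            exact hx.1.le
        rw [h5, ← mul_assoc, ← ENNReal.ofReal_mul (by positivity)]
        congr 2
        ring
    _ = ∫⁻ ρ in Ioo (0 : ℝ) r, ENNReal.ofReal ρ * (ENNReal.ofReal (2 * Real.pi) * ‖f c‖ₑ) := by
        rw [lintegral_mul_const'']
        exact ENNReal.measurable_ofReal.aemeasurable
    _ ≤ ∫⁻ ρ in Ioo (0 : ℝ) r, ∫⁻ θ in Ioo (-Real.pi) Real.pi,
          ENNReal.ofReal ρ • g (Complex.polarCoord.symm (ρ, θ)) :=
        setLIntegral_mono' measurableSet_Ioo hρ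
    _ ≤ ∫⁻ ρ in Ioi (0 : ℝ), ∫⁻ θ in Ioo (-Real.pi) Real.pi,
          ENNReal.ofReal ρ • g (Complex.polarCoord.symm (ρ, θ)) :=
        lintegral_mono_set Ioo_subset_Ioi_self

theorem enorm_le_lintegral_bidisc (G : ℂ × ℂ → ℂ) (c₁ c₂ : ℂ) (r₁ r₂ : ℝ) (h₁ : 0 < r₁)
    (h₂ : 0 < r₂) (hG : ContinuousOn G (ball c₁ r₁ ×ˢ ball c₂ r₂))
    (hx : ∀ y ∈ ball c₂ r₂, DifferentiableOn ℂ (fun x => G (x, y)) (ball c₁ r₁))
    (hy : DifferentiableOn ℂ (fun y => G (c₁, y)) (ball c₂ r₂)) :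
    ENNReal.ofReal (Real.pi * r₁ ^ 2) * ENNReal.ofReal (Real.pi * r₂ ^ 2) * ‖G (c₁, c₂)‖ₑ ≤
      ∫⁻ p in ball c₁ r₁ ×ˢ ball c₂ r₂, ‖G p‖ₑ ∂(volume.prod volume) := by
  rw [← Measure.prod_restrict]
  have hm : AEMeasurable (fun p => ‖G p‖ₑ)
      ((volume.restrict (ball c₁ r₁)).prod (volume.restrict (ball c₂ r₂))) := by
    rw [Measure.prod_restrict]
    exact hG.enorm.aemeasurable (measurableSet_ball.prod measurableSet_ball)
  rw [lintegral_prod_symm _ hm]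
  have h3 := enorm_le_lintegral_ball (fun y => G (c₁, y)) c₂ r₂ h₂ hy
  calc ENNReal.ofReal (Real.pi * r₁ ^ 2) * ENNReal.ofReal (Real.pi * r₂ ^ 2) * ‖G (c₁, c₂)‖ₑ
      = ENNReal.ofReal (Real.pi * r₁ ^ 2) *
          (ENNReal.ofReal (Real.pi * r₂ ^ 2) * ‖G (c₁, c₂)‖ₑ) := mul_assoc _ _ _
    _ ≤ ENNReal.ofReal (Real.pi * r₁ ^ 2) * ∫⁻ y in ball c₂ r₂, ‖G (c₁, y)‖ₑ := by gcongr
    _ = ∫⁻ y in ball c₂ r₂, ENNReal.ofReal (Real.pi * r₁ ^ 2) * ‖G (c₁, y)‖ₑ := by
        rw [lintegral_const_mul' _ _ ENNReal.ofReal_ne_top]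
    _ ≤ ∫⁻ y in ball c₂ r₂, ∫⁻ x in ball c₁ r₁, ‖G (x, y)‖ₑ := by
        refine setLIntegral_mono' measurableSet_ball fun y hyb => ?_
        exact enorm_le_lintegral_ball (fun x => G (x, y)) c₁ r₁ h₁ (hx y hyb)

theorem integrable_h0 : Integrable (fun u : ℂ => ‖u‖⁻¹ * ((1 + ‖u‖) ^ 2)⁻¹) := by
  have h := (integrable_fun_norm_addHaar (volume : Measure ℂ)
    (f := fun y : ℝ => y⁻¹ * ((1 + y) ^ 2)⁻¹)).2
  apply h
  rw [Complex.finrank_real_complex]
  have h2 : Integrable (fun x : ℝ => (1 + ‖x‖) ^ (-(2 : ℝ))) :=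
    integrable_one_add_norm (by simp)
  refine (h2.integrableOn (s := Ioi (0 : ℝ))).congr_fun ?_ measurableSet_Ioi
  intro y hy
  have hy' : (0 : ℝ) < y := hy
  simp only [smul_eq_mul]
  rw [Real.norm_of_nonneg hy'.le, Real.rpow_neg (by positivity)]
  have : (1 + y) ^ (2 : ℝ) = (1 + y) ^ 2 := by
    rw [← Real.rpow_natCast]; norm_num
  rw [this]
  field_simp
  norm_num

end Pool.Agent.Helper94.LinMean
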